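import Pool.Agent.Helper35.CL.StA

/-!
Project CL, module HU: the integrated monotonicity formula.
-/

set_option autoImplicit false

namespace Helper49.CL

open Pool.Agent.Helper35.CL Helper32.CL Helper35.PI Helper35.PI2
open scoped ContDiff Manifold Topology ENNReal BigOperators
open MeasureTheory Set Filter

theorem slice_HU {M : Type} [TopologicalSpace M] {V : Type} [TopologicalSpace V] {g : M → ℝ → V}
    (hg : CST g) {t : ℝ} (ht : t < 0) : Continuous (fun q => g q t) := by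
  have h : ContinuousOn (fun z : M × ℝ => g z.1 z.2) (univ ×ˢ Iio 0) := hg
  exact h.comp_continuous (f := fun q : M => (q, t)) (by fun_prop) fun q => ⟨mem_univ _, ht⟩

theorem hHU (hHP : StHP) (hTD : StTD) (hFV : StFV) (hAE : StAE) (hCO : StCO) (hCN : StCN)
    (hMU : StMU) : StHU := by
  intro N M _ _ _ _ _ _ _ _ F c χ hS c₀ hc₀ hpin
  obtain ⟨C, hC, hE⟩ := hAE N M F c χ hS c₀ hc₀ hpin
  obtain ⟨R, hR, hB⟩ := hCO N M F c χ hS c₀ hc₀ hpin
  obtain ⟨dφ, hφ, hdφ, hder, hpt⟩ := hHP N M F hS.mcf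
  obtain ⟨cF, cH, cA, cW⟩ := hCN N M F hS.mcf
  obtain ⟨s, hs, hmu⟩ := hMU 2 N M F c χ hS
  obtain ⟨T1, T2⟩ := hTD 2 N M F c χ hS
  have cW : CST (fun q t => wvF 2 (-2 * t) F q t) := cW (fun t => -2 * t) (by fun_prop)
  have cW2 : CST (fun q t => ‖wvF 2 (-2 * t) F q t‖ ^ 2) := by
    have h : ContinuousOn (fun z : M × ℝ => wvF 2 (-2 * z.2) F z.1 z.2) (univ ×ˢ Iio 0) := cW
    exact h.norm.pow 2
  -- the dissipation
  set k : M → ℝ → ℝ := fun q t => gk F q t * (‖wvF 2 (-2 * t) F q t‖ ^ 2 / (4 * t ^ 2)) with hk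
  have ck : CST k := by
    have h1 : ContinuousOn (fun z : M × ℝ => gk F z.1 z.2) (univ ×ˢ Iio 0) := hφ
    have h2 : ContinuousOn (fun z : M × ℝ => ‖wvF 2 (-2 * z.2) F z.1 z.2‖ ^ 2)
      (univ ×ˢ Iio 0) := cW2
    refine h1.mul (h2.div (by fun_prop) ?_)
    rintro ⟨q, t⟩ ⟨-, ht⟩
    have : (t : ℝ) ≠ 0 := (mem_Iio.mp ht).ne
    positivity
  have hkint : ∀ t < 0, Integrable (fun q => k q t) (muM 2 F c χ t) := fun t ht =>
    ((hmu t ht).2.2 _ (slice_HU ck ht)).1
  have hWint : ∀ t < 0, Integrable (fun q => ‖wvF 2 (-2 * t) F q t‖ ^ 2) (muM 2 F c χ t) :=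
    fun t ht => ((hmu t ht).2.2 _ (slice_HU cW2 ht)).1
  have hgint : ∀ t < 0, Integrable (fun q => gk F q t) (muM 2 F c χ t) := fun t ht =>
    ((hmu t ht).2.2 _ (slice_HU hφ ht)).1
  have hgpos : ∀ q, ∀ t < 0, 0 < gk F q t := by
    intro q t ht
    have : 0 < -t := by linarith
    unfold gk
    have := Real.pi_pos
    positivity
  -- derivative of the weighted area
  have hΘ : ∀ t < 0, HasDerivAt (fun t => ∫ q, gk F q t ∂muM 2 F c χ t)
      (-∫ q, k q t ∂muM 2 F c χ t) t := by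
    intro t ht
    have h := T2 (fun q t => gk F q t) dφ hφ hdφ (fun q t ht => hder q t ht) t ht
    obtain ⟨hX, hid⟩ := hpt t ht
    obtain ⟨hdc, h0⟩ := hFV 2 N M F c χ hS t ht _ hX
    have hHc : Continuous (fun q => HH (n := 2) F q t) := slice_HU cH ht
    have hXc := hX.continuous
    have hfi : Integrable (fun q => dvg (n := 2) F (fun q => (gk F q t / (2 * (-t))) • F q t) q t
        + inner ℝ (HH (n := 2) F q t) ((gk F q t / (2 * (-t))) • F q t)) (muM 2 F c χ t) :=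
      ((hmu t ht).2.2 _ (hdc.add (hHc.inner hXc))).1
    have e : (∫ q, (dφ q t - ‖HH (n := 2) F q t‖ ^ 2 * gk F q t) ∂muM 2 F c χ t)
        = -∫ q, k q t ∂muM 2 F c χ t := by
      rw [integral_congr_ae (Eventually.of_forall fun q => hid q)]
      have e1 : (fun q => -(gk F q t * (‖wvF 2 (-2 * t) F q t‖ ^ 2 / (4 * t ^ 2)))
          + (dvg (n := 2) F (fun q => (gk F q t / (2 * (-t))) • F q t) q t
            + inner ℝ (HH (n := 2) F q t) ((gk F q t / (2 * (-t))) • F q t))) =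
          fun q => -(k q t) + (dvg (n := 2) F (fun q => (gk F q t / (2 * (-t))) • F q t) q t
            + inner ℝ (HH (n := 2) F q t) ((gk F q t / (2 * (-t))) • F q t)) := rfl
      have hn : Integrable (fun q => -k q t) (muM 2 F c χ t) := (hkint t ht).neg
      rw [e1, integral_add hn hfi, h0, add_zero, integral_neg]
    rw [e] at h
    exact h
  have hkc : ContinuousOn (fun t => ∫ q, k q t ∂muM 2 F c χ t) (Iio 0) := T1 k ck
  have hWc : ContinuousOn (fun t => ∫ q, ‖wvF 2 (-2 * t) F q t‖ ^ 2 ∂muM 2 F c χ t) (Iio 0) :=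
    T1 _ cW2
  have hcont : ContinuousOn (fun t : ℝ =>
      (∫ q, ‖wvF 2 (-2 * t) F q t‖ ^ 2 ∂(muM 2 F c χ t)) / (-t) ^ 3) (Iio 0) := by
    refine hWc.div (by fun_prop) fun t ht => ?_
    have : 0 < -t := by linarith [mem_Iio.mp ht]
    positivity
  refine ⟨4 * Real.exp (R ^ 2 / 4) * C, by positivity, hcont, fun T hT => ?_⟩
  have hsub : uIcc (-T) (-1) ⊆ Iio 0 := by
    rw [uIcc_of_le (by linarith)]
    intro t ht
    exact lt_of_le_of_lt ht.2 (by norm_num)
  have hle : (-T : ℝ) ≤ -1 := by linarith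
  set K : ℝ := 16 * Real.pi * Real.exp (R ^ 2 / 4) with hK
  have hKpos : 0 < K := by have := Real.pi_pos; positivity
  -- pointwise comparison
  have hcmp : ∀ t ∈ Icc (-T) (-1), (∫ q, ‖wvF 2 (-2 * t) F q t‖ ^ 2 ∂(muM 2 F c χ t)) / (-t) ^ 3
      ≤ K * ∫ q, k q t ∂muM 2 F c χ t := by
    intro t ht
    have ht1 : t ≤ -1 := ht.2
    have ht0 : t < 0 := by linarith
    have hτ : 0 < -t := by linarith
    rw [← integral_const_mul, ← integral_div]
    refine integral_mono ((hWint t ht0).div_const _) ((hkint t ht0).const_mul _) fun q => ?_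
    have hg : Real.exp (-(R ^ 2 / 4)) / (4 * Real.pi * (-t)) ≤ gk F q t := by
      unfold gk
      rw [div_eq_inv_mul]
      refine mul_le_mul_of_nonneg_left (Real.exp_le_exp.mpr ?_) (by have := Real.pi_pos; positivity)
      have hb := hB t ht1 q
      have hb2 : ‖F q t‖ ^ 2 ≤ R ^ 2 * (-t) := by
        calc ‖F q t‖ ^ 2 ≤ (R * Real.sqrt (-t)) ^ 2 := pow_le_pow_left₀ (norm_nonneg _) hb 2
          _ = R ^ 2 * (-t) := by rw [mul_pow, Real.sq_sqrt hτ.le]
      rw [neg_div, neg_le_neg_iff, div_le_div_iff₀ (by positivity) (by norm_num)]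
      nlinarith
    have hw : 0 ≤ ‖wvF 2 (-2 * t) F q t‖ ^ 2 / (4 * t ^ 2) := by positivity
    have h1 := mul_le_mul_of_nonneg_right hg hw
    have hx : Real.exp (R ^ 2 / 4) * Real.exp (-(R ^ 2 / 4)) = 1 := by
      rw [← Real.exp_add]; simp
    have h2 := mul_le_mul_of_nonneg_left h1 hKpos.le
    show ‖wvF 2 (-2 * t) F q t‖ ^ 2 / (-t) ^ 3 ≤ K * k q t
    refine le_trans (le_of_eq ?_) h2
    have hpi := Real.pi_pos.ne'
    have ht' : t ≠ 0 := ht0.ne
    rw [hK]
    have : ‖wvF 2 (-2 * t) F q t‖ ^ 2 / (-t) ^ 3 =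
      (Real.exp (R ^ 2 / 4) * Real.exp (-(R ^ 2 / 4))) * (‖wvF 2 (-2 * t) F q t‖ ^ 2 / (-t) ^ 3) := by
      rw [hx, one_mul]
    rw [this]
    have ht3 : (-t) ^ 3 ≠ 0 := pow_ne_zero 3 (neg_ne_zero.mpr ht')
    field_simp
    ring
  have hint : ∫ t in (-T)..(-1), ∫ q, k q t ∂muM 2 F c χ t
      = (∫ q, gk F q (-T) ∂muM 2 F c χ (-T)) - ∫ q, gk F q (-1) ∂muM 2 F c χ (-1) := by
    have h := intervalIntegral.integral_eq_sub_of_hasDerivAt
      (f := fun t => ∫ q, gk F q t ∂muM 2 F c χ t)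
      (f' := fun t => -∫ q, k q t ∂muM 2 F c χ t) (a := -T) (b := -1)
      (fun t ht => hΘ t (hsub ht)) ((hkc.mono hsub).neg.intervalIntegrable)
    rw [intervalIntegral.integral_neg] at h
    linarith
  have hT0 : -T < 0 := by linarith
  have hfin : IsFiniteMeasure (muM 2 F c χ (-T)) := ⟨(hmu _ hT0).1⟩
  have hΘT : (∫ q, gk F q (-T) ∂muM 2 F c χ (-T)) ≤ C / (4 * Real.pi) := by
    have hpi := Real.pi_pos
    have hTp : 0 < T := by linarith
    have h1 : (∫ q, gk F q (-T) ∂muM 2 F c χ (-T)) ≤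
        ∫ _q, (4 * Real.pi * T)⁻¹ ∂muM 2 F c χ (-T) := by
      refine integral_mono (hgint _ hT0) (integrable_const _) fun q => ?_
      show gk F q (-T) ≤ _
      unfold gk
      rw [neg_neg]
      refine mul_le_of_le_one_right (by positivity) (Real.exp_le_one_iff.mpr ?_)
      rw [neg_div]
      exact neg_nonpos.mpr (by positivity)
    rw [integral_const, smul_eq_mul] at h1
    have h2 := (hE (-T) hle).2
    rw [neg_neg] at h2
    refine h1.trans ?_
    calc (muM 2 F c χ (-T)).real univ * (4 * Real.pi * T)⁻¹ ≤ C * T * (4 * Real.pi * T)⁻¹ :=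
          mul_le_mul_of_nonneg_right h2 (by positivity)
      _ = C / (4 * Real.pi) := by field_simp
  have hΘ1 : 0 ≤ ∫ q, gk F q (-1) ∂muM 2 F c χ (-1) :=
    integral_nonneg fun q => (hgpos q (-1) (by norm_num)).le
  calc ∫ t in (-T)..(-1), (∫ q, ‖wvF 2 (-2 * t) F q t‖ ^ 2 ∂(muM 2 F c χ t)) / (-t) ^ 3
      ≤ ∫ t in (-T)..(-1), K * ∫ q, k q t ∂muM 2 F c χ t :=
        intervalIntegral.integral_mono_on hle ((hcont.mono hsub).intervalIntegrable)
          (((hkc.mono hsub).intervalIntegrable).const_mul K) hcmp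
    _ = K * ∫ t in (-T)..(-1), ∫ q, k q t ∂muM 2 F c χ t :=
        intervalIntegral.integral_const_mul _ _
    _ ≤ K * (C / (4 * Real.pi)) := by
        rw [hint]
        exact mul_le_mul_of_nonneg_left (by linarith) hKpos.le
    _ = 4 * Real.exp (R ^ 2 / 4) * C := by
        rw [hK]
        have := Real.pi_pos.ne'
        field_simp
        ring

end Helper49.CL
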